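import Mathlib
import Pool.Agent.Helper13.TU.Defs
import Pool.Agent.Helper12.TU.UnitApprox
import Pool.Agent.Helper5.TU.Liouville
import Pool.Agent.Helper13.TU.TwoLog

/-! # TU-9: the lower bound `weak_baker` (MP_86b3ee_nt) -/

set_option autoImplicit false

open NumberField Polynomial Module IntermediateField Metric
open scoped TensorProduct

namespace Pool.Agent.Helper13.TU

section
variable {K : Type*} [Field K]

/-- an embedding does not kill a unit -/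
theorem wb_unit_ne (x : (𝓞 K)ˣ) (σ : K →+* ℂ) : σ ((x : 𝓞 K) : K) ≠ 0 :=
  (map_ne_zero σ).mpr (NumberField.Units.coe_ne_zero x)

theorem wb_norm_pos (x : (𝓞 K)ˣ) (σ : K →+* ℂ) : 0 < ‖σ ((x : 𝓞 K) : K)‖ :=
  norm_pos_iff.mpr (wb_unit_ne x σ)

theorem wb_conj (x : (𝓞 K)ˣ) (σ : K →+* ℂ) :
    ‖(ComplexEmbedding.conjugate σ) ((x : 𝓞 K) : K)‖ = ‖σ ((x : 𝓞 K) : K)‖ := by
  rw [ComplexEmbedding.conjugate_coe_eq]
  exact Complex.norm_conj _

theorem wb_map_mul (x y : (𝓞 K)ˣ) (σ : K →+* ℂ) :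
    σ (((x * y : (𝓞 K)ˣ) : 𝓞 K) : K) = σ ((x : 𝓞 K) : K) * σ ((y : 𝓞 K) : K) := by
  simp

theorem wb_map_pow (x : (𝓞 K)ˣ) (n : ℕ) (σ : K →+* ℂ) :
    σ (((x ^ n : (𝓞 K)ˣ) : 𝓞 K) : K) = σ ((x : 𝓞 K) : K) ^ n := by
  simp

theorem wb_map_inv (x : (𝓞 K)ˣ) (σ : K →+* ℂ) :
    σ (((x⁻¹ : (𝓞 K)ˣ) : 𝓞 K) : K) = (σ ((x : 𝓞 K) : K))⁻¹ := by
  have h := wb_map_mul x x⁻¹ σ
  rw [mul_inv_cancel] at h
  simp only [Units.val_one, map_one] at h
  exact eq_inv_of_mul_eq_one_right h.symm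

variable [NumberField K]

theorem wb_sum_log (x : (𝓞 K)ˣ) : ∑ σ : K →+* ℂ, Real.log ‖σ ((x : 𝓞 K) : K)‖ = 0 := by
  classical
  have h1 : ∏ σ : K →+* ℂ, ‖σ ((x : 𝓞 K) : K)‖ = 1 := by
    have h := congr_arg (‖·‖) (Algebra.norm_eq_prod_embeddings ℚ ℂ ((x : 𝓞 K) : K))
    simp only [norm_prod] at h
    rw [Fintype.prod_equiv (RingHom.equivRatAlgHom K ℂ)
      (fun f => ‖f ((x : 𝓞 K) : K)‖) (fun φ => ‖φ ((x : 𝓞 K) : K)‖)
      (fun _ => by simp [RingHom.equivRatAlgHom_apply]), ← h]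
    have h3 : |Algebra.norm ℚ ((x : 𝓞 K) : K)| = 1 := NumberField.Units.norm K x
    rw [eq_ratCast, ← Complex.ofReal_ratCast, Complex.norm_real, Real.norm_eq_abs, ← Rat.cast_abs]
    rw [h3]
    simp
  rw [← Real.log_prod (fun σ _ => (wb_norm_pos x σ).ne'), h1, Real.log_one]

/-- a trivial estimate: `x - r * k` for `r = ⌊x / k⌋` -/
theorem wb_floor (B : ℝ) (k : ℕ) (hB : 0 ≤ B) (hk : 1 ≤ k) :
    0 ≤ B - (⌊B / k⌋₊ : ℝ) * k ∧ B - (⌊B / k⌋₊ : ℝ) * k ≤ k := by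
  have hk' : (0 : ℝ) < k := by exact_mod_cast hk
  have h1 : (⌊B / k⌋₊ : ℝ) ≤ B / k := Nat.floor_le (by positivity)
  have h2 : B / k < ⌊B / k⌋₊ + 1 := Nat.lt_floor_add_one _
  rw [le_div_iff₀ hk'] at h1
  rw [div_lt_iff₀ hk'] at h2
  constructor <;> nlinarith

omit [NumberField K] in
/-- size of the conjugates of `x η^(-r)` -/
theorem wb_size (x η : (𝓞 K)ˣ) (σ : K →+* ℂ) (B : ℝ) (q k : ℕ) (hq : 1 ≤ q) (hk : 1 ≤ k)
    (hB : 0 < B) (hx : |Real.log ‖σ ((x : 𝓞 K) : K)‖| ≤ B)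
    (hη : |Real.log ‖σ ((η : 𝓞 K) : K)‖ - k * (Real.log ‖σ ((x : 𝓞 K) : K)‖ / B)| ≤ 1 / q)
    (hr : (k : ℝ) * q ≤ ⌊B / k⌋₊) :
    |Real.log ‖σ (((x⁻¹ * η ^ ⌊B / k⌋₊ : (𝓞 K)ˣ) : 𝓞 K) : K)‖| ≤ 2 * (⌊B / k⌋₊ / q) := by
  set r := ⌊B / k⌋₊ with hrdef
  have hq' : (0 : ℝ) < q := by exact_mod_cast hq
  obtain ⟨h1, h2⟩ := wb_floor B k hB.le hk
  rw [← hrdef] at h1 h2
  rw [wb_map_mul, wb_map_inv, wb_map_pow, norm_mul, norm_inv, norm_pow,
    Real.log_mul (inv_ne_zero (wb_norm_pos x σ).ne') (pow_ne_zero _ (wb_norm_pos η σ).ne'),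
    Real.log_inv, Real.log_pow]
  set X := Real.log ‖σ ((x : 𝓞 K) : K)‖ with hX
  set Y := Real.log ‖σ ((η : 𝓞 K) : K)‖ with hY
  have e1 : -X + r * Y = r * (Y - k * (X / B)) - (X / B) * (B - r * k) := by
    field_simp
    ring
  rw [e1]
  have h3 : |X / B| ≤ 1 := by
    rw [abs_div, abs_of_pos hB, div_le_one hB]; exact hx
  have h4 : |(r : ℝ) * (Y - k * (X / B))| ≤ r * (1 / q) := by
    rw [abs_mul, abs_of_nonneg (by positivity : (0 : ℝ) ≤ r)]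
    exact mul_le_mul_of_nonneg_left hη (by positivity)
  have h5 : |(X / B) * (B - r * k)| ≤ k := by
    rw [abs_mul, abs_of_nonneg h1]
    calc |X / B| * (B - r * k) ≤ 1 * (B - r * k) := mul_le_mul_of_nonneg_right h3 h1
      _ ≤ k := by linarith
  have h6 : (k : ℝ) ≤ r / q := by
    rw [le_div_iff₀ hq']; exact hr
  calc |(r : ℝ) * (Y - k * (X / B)) - (X / B) * (B - r * k)|
      ≤ |(r : ℝ) * (Y - k * (X / B))| + |(X / B) * (B - r * k)| := abs_sub _ _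
    _ ≤ r * (1 / q) + k := add_le_add h4 h5
    _ ≤ 2 * (r / q) := by
      have : (r : ℝ) * (1 / q) = r / q := by ring
      linarith

theorem weak_baker {R : ℕ} (P : Prim K R) (p : ℕ) (hp1 : 1 ≤ p)
    (hp : 256 * (8 * finrank ℚ K ^ 2 + 9) * (8 * (finrank ℚ K ^ 2 + 1) * p) ≤ 2 ^ p)
    (x y : (𝓞 K)ˣ) (σ₁ σ₂ : K →+* ℂ) (B : ℝ) (hB : (B0 (finrank ℚ K) R p : ℝ) ≤ B)
    (hx : ∀ σ : K →+* ℂ, |Real.log ‖σ ((x : 𝓞 K) : K)‖| ≤ B)
    (hy : ∀ σ : K →+* ℂ, |Real.log ‖σ ((y : 𝓞 K) : K)‖| ≤ B)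
    (hne : σ₁ ((x : 𝓞 K) : K) * σ₂ ((y : 𝓞 K) : K) ≠ 1) :
    Real.exp (-(80 * (cD (finrank ℚ K ^ 2) : ℝ) * p ^ 2 / 2 ^ p * B)) ≤
      ‖σ₁ ((x : 𝓞 K) : K) * σ₂ ((y : 𝓞 K) : K) - 1‖ := by
  classical
  set d := finrank ℚ K with hd
  have hd1 : 1 ≤ d := finrank_pos
  set q : ℕ := 2 ^ p with hqdef
  have hq1 : 1 ≤ q := Nat.one_le_two_pow
  have hq2 : 2 ≤ q := by
    calc 2 = 2 ^ 1 := by norm_num
      _ ≤ 2 ^ p := Nat.pow_le_pow_right (by norm_num) hp1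
  have hqr : (0 : ℝ) < q := by exact_mod_cast hq1
  set C := cellBd d R q with hC
  have hB0 : (8 * (C : ℝ) ^ 2 * q) ≤ B := by
    have : (B0 d R p : ℝ) = 8 * (C : ℝ) ^ 2 * q := by
      simp [B0, hC, hqdef]
    rw [← this]; exact hB
  have hd2 : (1 : ℝ) ≤ (d : ℝ) ^ 2 := by
    have : (1 : ℝ) ≤ d := by exact_mod_cast hd1
    exact one_le_pow₀ this
  have hcD : (d : ℝ) ^ 2 ≤ (cD (d ^ 2) : ℝ) := by
    have : d ^ 2 ≤ cD (d ^ 2) := by
      unfold cD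
      nlinarith [Nat.zero_le (d ^ 2), Nat.zero_le ((d ^ 2) ^ 2), Nat.zero_le ((d ^ 2) ^ 3),
        Nat.zero_le ((d ^ 2) ^ 4)]
    exact_mod_cast this
  have hC1 : 1 ≤ C := by
    rw [hC, Nat.one_le_iff_ne_zero]
    unfold cellBd
    positivity
  have hC1' : (1 : ℝ) ≤ C := by exact_mod_cast hC1
  have hBq8 : 8 * (q : ℝ) ≤ B := by
    have h1 : (1 : ℝ) ≤ (C : ℝ) ^ 2 := one_le_pow₀ hC1'
    have h2 : (1 : ℝ) * q ≤ (C : ℝ) ^ 2 * q := mul_le_mul_of_nonneg_right h1 hqr.le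
    linarith
  have hBpos : 0 < B := by linarith
  -- the main exponent
  set M : ℝ := (cD (d ^ 2) : ℝ) * (p : ℝ) ^ 2 with hM
  set Bq : ℝ := B / q with hBq
  have hBq1 : 8 ≤ Bq := by rw [hBq, le_div_iff₀ hqr]; exact hBq8
  have hdM : (d : ℝ) ^ 2 ≤ M := by
    have h1 : (1 : ℝ) ≤ (p : ℝ) ^ 2 := by
      have : (1 : ℝ) ≤ p := by exact_mod_cast hp1
      exact one_le_pow₀ this
    have h2 : (d : ℝ) ^ 2 * 1 ≤ (cD (d ^ 2) : ℝ) * (p : ℝ) ^ 2 :=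
      mul_le_mul hcD h1 zero_le_one (by positivity)
    linarith
  have hM1 : 1 ≤ M := le_trans hd2 hdM
  have hG : 80 * (cD (d ^ 2) : ℝ) * p ^ 2 / 2 ^ p * B = 80 * M * Bq := by
    rw [hM, hBq, hqdef]
    push_cast
    ring
  rw [hG]
  have hMB : 8 ≤ M * Bq := by
    have h1 : 1 * 8 ≤ M * Bq := mul_le_mul hM1 hBq1 (by norm_num) (by linarith)
    linarith
  set γ : ℂ := σ₁ ((x : 𝓞 K) : K) * σ₂ ((y : 𝓞 K) : K) with hγ
  have hγ0 : γ ≠ 0 := mul_ne_zero (wb_unit_ne x σ₁) (wb_unit_ne y σ₂)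
  have hexp1 : Real.exp (-1) ≤ 1 / 2 := by
    rw [Real.exp_neg, inv_le_comm₀ (Real.exp_pos 1) (by norm_num)]
    have := Real.exp_one_gt_d9
    norm_num
    linarith
  rcases le_or_gt (1 / 2) ‖γ - 1‖ with hbig | hsmall
  · calc Real.exp (-(80 * M * Bq)) ≤ Real.exp (-1) := Real.exp_le_exp.mpr (by linarith)
      _ ≤ 1 / 2 := hexp1
      _ ≤ ‖γ - 1‖ := hbig
  set v : (K →+* ℂ) → ℝ := fun σ => Real.log ‖σ ((x : 𝓞 K) : K)‖ / B with hv
  set v' : (K →+* ℂ) → ℝ := fun σ => Real.log ‖σ ((y : 𝓞 K) : K)‖ / B with hv'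
  obtain ⟨k, hk1, hkC, η, η', hη, hη', harg⟩ := unit_approx P q hq1 v v'
    (fun σ => by simp only [hv, wb_conj])
    (by simp only [hv]; rw [← Finset.sum_div, wb_sum_log, zero_div])
    (fun σ => by simp only [hv', wb_conj])
    (by simp only [hv']; rw [← Finset.sum_div, wb_sum_log, zero_div]) σ₁ σ₂
  rw [← hd] at hkC
  have hk1' : (1 : ℝ) ≤ k := by exact_mod_cast hk1
  have hkC' : (k : ℝ) ≤ C := by exact_mod_cast hkC
  have hkpos : (0 : ℝ) < k := by linarith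
  have hkkq : (k : ℝ) * q * k ≤ B := by
    have h1 : (k : ℝ) * k ≤ C * C := mul_le_mul hkC' hkC' hkpos.le (by linarith)
    have h2 : (k : ℝ) * k * q ≤ C * C * q := mul_le_mul_of_nonneg_right h1 hqr.le
    have h3 : 0 ≤ (C : ℝ) * C * q := by positivity
    have h4 : (k : ℝ) * q * k = k * k * q := by ring
    have h5 : 8 * (C : ℝ) ^ 2 * q = 8 * (C * C * q) := by ring
    rw [h4]
    rw [h5] at hB0
    linarith
  set r : ℕ := ⌊B / k⌋₊ with hr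
  have hkr : (k : ℝ) * q ≤ r := by
    have h : k * q ≤ r := by
      rw [hr]
      apply Nat.le_floor
      rw [le_div_iff₀ hkpos]
      push_cast
      exact hkkq
    exact_mod_cast h
  have hrk : (r : ℝ) * k ≤ B := by
    have := (wb_floor B k hBpos.le hk1).1
    rw [← hr] at this
    linarith
  -- the ratio `ρ = r / q`
  set ρ : ℝ := r / q with hρ
  have hρk : (k : ℝ) ≤ ρ := by rw [hρ, le_div_iff₀ hqr]; exact hkr
  have hρB : ρ * k ≤ Bq := by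
    rw [hρ, hBq, div_mul_eq_mul_div]
    exact div_le_div_of_nonneg_right hrk hqr.le
  have hρ1 : 1 ≤ ρ := le_trans hk1' hρk
  have hρBq : ρ ≤ Bq := by
    have h1 : ρ * 1 ≤ ρ * k := mul_le_mul_of_nonneg_left hk1' (by linarith)
    linarith
  set W : ℕ := ⌈4 * ρ⌉₊ with hW
  have hW1 : 4 * ρ ≤ W := Nat.le_ceil _
  have hW2 : (W : ℝ) < 4 * ρ + 1 := Nat.ceil_lt_add_one (by linarith)
  have hW3 : (W : ℝ) ≤ 5 * ρ := by linarith
  have hW4 : 1 ≤ W := by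
    have : (1 : ℝ) ≤ W := by linarith
    exact_mod_cast this
  have hqρ : (q : ℝ) * ρ = r := by rw [hρ]; field_simp
  have hxs : ∀ σ : K →+* ℂ,
      |Real.log ‖σ (((x⁻¹ * η ^ r : (𝓞 K)ˣ) : 𝓞 K) : K)‖| ≤ 2 * ρ := fun σ =>
    wb_size x η σ B q k hq1 hk1 hBpos (hx σ) (hη σ) hkr
  have hys : ∀ σ : K →+* ℂ,
      |Real.log ‖σ (((y⁻¹ * η' ^ r : (𝓞 K)ˣ) : 𝓞 K) : K)‖| ≤ 2 * ρ := fun σ =>
    wb_size y η' σ B q k hq1 hk1 hBpos (hy σ) (hη' σ) hkr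
  have hnorm : ∀ (u : (𝓞 K)ˣ) (σ : K →+* ℂ) (t : ℝ),
      |Real.log ‖σ ((u : 𝓞 K) : K)‖| ≤ t → ‖σ ((u : 𝓞 K) : K)‖ ≤ Real.exp t := by
    intro u σ t h
    rw [← Real.log_le_iff_le_exp (wb_norm_pos u σ)]
    exact (abs_le.mp h).2
  set A : 𝓞 K ⊗[ℤ] 𝓞 K := (η : 𝓞 K) ⊗ₜ (η' : 𝓞 K) with hA
  set β : 𝓞 K ⊗[ℤ] 𝓞 K := ((x⁻¹ * η ^ r : (𝓞 K)ˣ) : 𝓞 K) ⊗ₜ ((y⁻¹ * η' ^ r : (𝓞 K)ˣ) : 𝓞 K)
    with hβ
  have hβbd : ∀ σ τ : K →+* ℂ, ‖phi σ τ β‖ ≤ Real.exp W := by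
    intro σ τ
    rw [hβ, phi_tmul, norm_mul]
    calc _ ≤ Real.exp (2 * ρ) * Real.exp (2 * ρ) :=
          mul_le_mul (hnorm _ σ _ (hxs σ)) (hnorm _ τ _ (hys τ)) (norm_nonneg _)
            (Real.exp_pos _).le
      _ = Real.exp (4 * ρ) := by rw [← Real.exp_add]; ring_nf
      _ ≤ Real.exp W := Real.exp_le_exp.mpr hW1
  have h1q : (1 : ℝ) / q ≤ 1 / 2 := by
    apply one_div_le_one_div_of_le (by norm_num)
    exact_mod_cast hq2
  have hvb : ∀ σ, |v σ| ≤ 1 := fun σ => by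
    simp only [hv]
    rw [abs_div, abs_of_pos hBpos, div_le_one hBpos]; exact hx σ
  have hvb' : ∀ σ, |v' σ| ≤ 1 := fun σ => by
    simp only [hv']
    rw [abs_div, abs_of_pos hBpos, div_le_one hBpos]; exact hy σ
  have hηb : ∀ σ : K →+* ℂ, |Real.log ‖σ ((η : 𝓞 K) : K)‖| ≤ k + 1 / 2 := by
    intro σ
    have h1 : |(k : ℝ) * v σ| ≤ k := by
      rw [abs_mul, abs_of_pos hkpos]
      have := mul_le_mul_of_nonneg_left (hvb σ) hkpos.le
      linarith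
    have h2 := hη σ
    have h3 : Real.log ‖σ ((η : 𝓞 K) : K)‖ =
      (Real.log ‖σ ((η : 𝓞 K) : K)‖ - k * v σ) + k * v σ := by ring
    rw [h3]
    refine le_trans (abs_add_le _ _) ?_
    linarith
  have hηb' : ∀ σ : K →+* ℂ, |Real.log ‖σ ((η' : 𝓞 K) : K)‖| ≤ k + 1 / 2 := by
    intro σ
    have h1 : |(k : ℝ) * v' σ| ≤ k := by
      rw [abs_mul, abs_of_pos hkpos]
      have := mul_le_mul_of_nonneg_left (hvb' σ) hkpos.le
      linarith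
    have h2 := hη' σ
    have h3 : Real.log ‖σ ((η' : 𝓞 K) : K)‖ =
      (Real.log ‖σ ((η' : 𝓞 K) : K)‖ - k * v' σ) + k * v' σ := by ring
    rw [h3]
    refine le_trans (abs_add_le _ _) ?_
    linarith
  have hAbd : ∀ σ τ : K →+* ℂ, ‖phi σ τ A‖ ≤ Real.exp ((2 * k + 1 : ℕ) : ℝ) := by
    intro σ τ
    rw [hA, phi_tmul, norm_mul]
    calc _ ≤ Real.exp (k + 1 / 2) * Real.exp (k + 1 / 2) :=
          mul_le_mul (hnorm _ σ _ (hηb σ)) (hnorm _ τ _ (hηb' τ)) (norm_nonneg _)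
            (Real.exp_pos _).le
      _ = Real.exp ((2 * k + 1 : ℕ) : ℝ) := by rw [← Real.exp_add]; push_cast; ring_nf
  -- logarithms
  set Λ : ℂ := Complex.log γ with hΛ
  have hexpΛ : Complex.exp Λ = γ := Complex.exp_log hγ0
  have hΛle : ‖Λ‖ ≤ 3 / 2 * ‖γ - 1‖ := by
    have := Complex.norm_log_one_add_half_le_self (z := γ - 1) hsmall.le
    rwa [add_sub_cancel] at this
  set a₀ : ℂ := σ₁ ((η : 𝓞 K) : K) * σ₂ ((η' : 𝓞 K) : K) with ha₀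
  have ha₀0 : a₀ ≠ 0 := mul_ne_zero (wb_unit_ne η σ₁) (wb_unit_ne η' σ₂)
  set l : ℂ := Complex.log a₀ with hl
  have hexpl : Complex.exp l = a₀ := Complex.exp_log ha₀0
  have hphiA : phi σ₁ σ₂ A = Complex.exp l := by rw [hexpl, hA, phi_tmul]
  have hphiβ : phi σ₁ σ₂ β = γ⁻¹ * a₀ ^ r := by
    rw [hβ, phi_tmul, wb_map_mul, wb_map_mul, wb_map_inv, wb_map_inv, wb_map_pow, wb_map_pow,
      hγ, ha₀, mul_inv, mul_pow]
    ring
  have hphiβ' : phi σ₁ σ₂ β = Complex.exp (r * l - Λ) := by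
    rw [hphiβ, Complex.exp_sub, hexpΛ, Complex.exp_nat_mul, hexpl, div_eq_mul_inv, mul_comm]
  by_cases hl0 : l = 0
  · -- Liouville
    have ha1 : a₀ = 1 := by rw [← hexpl, hl0, Complex.exp_zero]
    have hβγ : phi σ₁ σ₂ β = γ⁻¹ := by rw [hphiβ, ha1, one_pow, mul_one]
    have hT : ∀ σ τ : K →+* ℂ, ‖phi σ τ (β - 1)‖ ≤ Real.exp (2 * W) := by
      intro σ τ
      rw [map_sub, map_one]
      have h1 : ‖phi σ τ β - 1‖ ≤ ‖phi σ τ β‖ + 1 := by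
        have := norm_sub_le (phi σ τ β) 1
        rwa [norm_one] at this
      have h2 : (2 : ℝ) ≤ Real.exp W := by
        have h3 := Real.add_one_le_exp (W : ℝ)
        have h4 : (1 : ℝ) ≤ W := by exact_mod_cast hW4
        linarith
      have h5 : Real.exp (2 * W) = Real.exp W * Real.exp W := by rw [← Real.exp_add]; ring_nf
      rw [h5]
      have h6 := hβbd σ τ
      have h7 : Real.exp W * 2 ≤ Real.exp W * Real.exp W :=
        mul_le_mul_of_nonneg_left h2 (Real.exp_pos _).le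
      linarith
    have hTne : phi σ₁ σ₂ (β - 1) ≠ 0 := by
      rw [map_sub, map_one, hβγ]
      intro h
      apply hne
      have := sub_eq_zero.mp h
      rw [inv_eq_one] at this
      exact this
    have hL := liouville_tensor (β - 1) σ₁ σ₂ (Real.exp (2 * W))
      (Real.one_le_exp (by positivity)) hT hTne
    rw [← hd, map_sub, map_one, hβγ] at hL
    have hγh : 1 / 2 ≤ ‖γ‖ := by
      have h1 : ‖(1 : ℂ)‖ ≤ ‖γ‖ + ‖1 - γ‖ := by
        calc ‖(1 : ℂ)‖ = ‖γ + (1 - γ)‖ := by ring_nf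
          _ ≤ _ := norm_add_le _ _
      rw [norm_one, norm_sub_rev] at h1
      linarith
    have hinv : ‖γ⁻¹ - 1‖ ≤ 2 * ‖γ - 1‖ := by
      have h1 : γ⁻¹ - 1 = γ⁻¹ * (1 - γ) := by field_simp
      rw [h1, norm_mul, norm_inv, norm_sub_rev 1 γ]
      have h2 : ‖γ‖⁻¹ ≤ 2 := by
        rw [inv_le_comm₀ (by linarith) (by norm_num)]
        linarith
      exact mul_le_mul_of_nonneg_right h2 (norm_nonneg _)
    rw [← Real.exp_nat_mul] at hL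
    have h3 : Real.exp (-(((d ^ 2 : ℕ) : ℝ) * (2 * W))) ≤ 2 * ‖γ - 1‖ := by
      rw [Real.exp_neg, inv_le_iff_one_le_mul₀ (Real.exp_pos _)]
      calc (1 : ℝ) ≤ _ := hL
        _ ≤ Real.exp (((d ^ 2 : ℕ) : ℝ) * (2 * W)) * (2 * ‖γ - 1‖) :=
          mul_le_mul_of_nonneg_left hinv (Real.exp_pos _).le
        _ = _ := by ring
    have h4 : ((d ^ 2 : ℕ) : ℝ) * (2 * W) ≤ 10 * (M * Bq) := by
      push_cast
      have h5 : (W : ℝ) ≤ 5 * Bq := by linarith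
      have h6 : (d : ℝ) ^ 2 * W ≤ M * (5 * Bq) := mul_le_mul hdM h5 (by positivity) (by linarith)
      linarith
    calc Real.exp (-(80 * M * Bq)) ≤ Real.exp (-1 + -(((d ^ 2 : ℕ) : ℝ) * (2 * W))) :=
          Real.exp_le_exp.mpr (by linarith)
      _ = Real.exp (-1) * Real.exp (-(((d ^ 2 : ℕ) : ℝ) * (2 * W))) := Real.exp_add _ _
      _ ≤ 1 / 2 * (2 * ‖γ - 1‖) := mul_le_mul hexp1 h3 (Real.exp_pos _).le (by norm_num)
      _ = ‖γ - 1‖ := by ring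
  · -- two logarithms
    have hlnorm : ‖l‖ ≤ 4 / 2 ^ p := by
      have him : |l.im| ≤ 1 / q := by
        rw [hl, Complex.log_im]; exact harg
      have hΛre : Real.log ‖σ₁ ((x : 𝓞 K) : K)‖ + Real.log ‖σ₂ ((y : 𝓞 K) : K)‖ = Λ.re := by
        rw [hΛ, Complex.log_re, hγ, norm_mul,
          Real.log_mul (wb_norm_pos x σ₁).ne' (wb_norm_pos y σ₂).ne']
      have hΛ34 : |Λ.re| ≤ 3 / 4 := by
        refine le_trans (Complex.abs_re_le_norm Λ) ?_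
        linarith
      have hre : |l.re| ≤ 3 / q := by
        have e1 : l.re = (Real.log ‖σ₁ ((η : 𝓞 K) : K)‖ - k * v σ₁) +
            (Real.log ‖σ₂ ((η' : 𝓞 K) : K)‖ - k * v' σ₂) + k * (Λ.re / B) := by
          rw [hl, Complex.log_re, ha₀, norm_mul,
            Real.log_mul (wb_norm_pos η σ₁).ne' (wb_norm_pos η' σ₂).ne', ← hΛre]
          simp only [hv, hv']
          ring
        have e2 : |(k : ℝ) * (Λ.re / B)| ≤ 1 / q := by
          rw [abs_mul, abs_div, abs_of_pos hkpos, abs_of_pos hBpos, ← mul_div_assoc,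
            div_le_div_iff₀ hBpos hqr]
          have h1 : (k : ℝ) * |Λ.re| ≤ k * 1 :=
            mul_le_mul_of_nonneg_left (by linarith) hkpos.le
          have h2 : (k : ℝ) * q * 1 ≤ k * q * k :=
            mul_le_mul_of_nonneg_left hk1' (by positivity)
          have h3 : (k : ℝ) * |Λ.re| * q ≤ k * 1 * q := mul_le_mul_of_nonneg_right h1 hqr.le
          linarith
        rw [e1]
        refine le_trans (abs_add_le _ _) ?_
        refine le_trans (add_le_add (abs_add_le _ _) le_rfl) ?_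
        have h1 := hη σ₁
        have h2 := hη' σ₂
        have h3 : (3 : ℝ) / q = 1 / q + 1 / q + 1 / q := by ring
        rw [h3]
        linarith
      have h1 := Complex.norm_le_abs_re_add_abs_im l
      have h2 : (4 : ℝ) / 2 ^ p = 3 / q + 1 / q := by
        rw [hqdef]; push_cast; ring
      rw [h2]
      linarith
    have hrr1 : 4 * r ≤ 2 ^ p * W := by
      have h0 : (q : ℝ) * (4 * ρ) ≤ q * W := mul_le_mul_of_nonneg_left hW1 hqr.le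
      have : (4 : ℝ) * r ≤ q * W := by linarith
      exact_mod_cast this
    have hrr2 : 2 ^ p * W ≤ 8 * r := by
      have h0 : (q : ℝ) * W ≤ q * (5 * ρ) := mul_le_mul_of_nonneg_left hW3 hqr.le
      have h1 : 0 ≤ (r : ℝ) := by positivity
      have : (q : ℝ) * W ≤ 8 * r := by linarith
      exact_mod_cast this
    have key := two_log (S := 𝓞 K ⊗[ℤ] 𝓞 K) (ι := (K →+* ℂ) × (K →+* ℂ))
      (fun s => phi s.1 s.2) (d ^ 2) (Nat.one_le_pow _ _ hd1)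
      (fun T s₀ H hH h hne => liouville_tensor T s₀.1 s₀.2 H hH (fun σ τ => h (σ, τ)) hne)
      A β (σ₁, σ₂) p (2 * k + 1) W r hp1 hp (by omega) hW4 hrr1 hrr2
      (fun s => hAbd s.1 s.2) (fun s => hβbd s.1 s.2) l Λ hphiA hphiβ' hl0 hlnorm
    have h4 : 3 * ((cD (d ^ 2) : ℝ) * p ^ 2 * ((2 * k + 1 : ℕ) : ℝ) * W) ≤ 45 * (M * Bq) := by
      rw [← hM]
      push_cast
      have h5 : ((2 : ℝ) * k + 1) * W ≤ 15 * Bq := by
        have h6 : ((2 : ℝ) * k + 1) * W ≤ (3 * k) * (5 * ρ) :=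
          mul_le_mul (by linarith) hW3 (by positivity) (by positivity)
        have h8 : (3 * (k : ℝ)) * (5 * ρ) = 15 * (ρ * k) := by ring
        linarith
      have h7 : M * (((2 : ℝ) * k + 1) * W) ≤ M * (15 * Bq) :=
        mul_le_mul_of_nonneg_left h5 (by linarith)
      linarith
    calc Real.exp (-(80 * M * Bq)) ≤ Real.exp (-1 + -(3 * ((cD (d ^ 2) : ℝ) * p ^ 2 *
            ((2 * k + 1 : ℕ) : ℝ) * W))) := Real.exp_le_exp.mpr (by linarith)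
      _ = Real.exp (-1) * Real.exp (-(3 * ((cD (d ^ 2) : ℝ) * p ^ 2 *
            ((2 * k + 1 : ℕ) : ℝ) * W))) := Real.exp_add _ _
      _ ≤ 1 / 2 * ‖Λ‖ := mul_le_mul hexp1 key (Real.exp_pos _).le (by norm_num)
      _ ≤ 1 / 2 * (3 / 2 * ‖γ - 1‖) := by linarith
      _ ≤ ‖γ - 1‖ := by linarith [norm_nonneg (γ - 1)]

end

end Pool.Agent.Helper13.TU
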